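import Mathlib
import Pool.Agent.Lib.MP_85963d_gt.Interfaces

/-!
# Module SPHERE: integrals of u-functions over the shell in polar coordinates
-/

set_option autoImplicit false

open MeasureTheory Set Filter Topology Quaternion
open scoped Real ContDiff

namespace Pool.Agent.MP85963d.H59

open SF

/-- `z + w k` -/
def lq (z w : ℂ) : ℍ := ⟨z.re, z.im, -w.im, w.re⟩

@[simp] theorem lq_re (z w : ℂ) : (lq z w).re = z.re := rfl
@[simp] theorem lq_imI (z w : ℂ) : (lq z w).imI = z.im := rfl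
@[simp] theorem lq_imJ (z w : ℂ) : (lq z w).imJ = -w.im := rfl
@[simp] theorem lq_imK (z w : ℂ) : (lq z w).imK = w.re := rfl

/-- the linear map `(z,w) ↦ z + w k` -/
noncomputable def Lq : (ℂ × ℂ) ≃ₗ[ℝ] ℍ where
  toFun p := lq p.1 p.2
  invFun q := (⟨q.re, q.imI⟩, ⟨q.imK, -q.imJ⟩)
  left_inv p := by
    apply Prod.ext
    · apply Complex.ext <;> simp
    · apply Complex.ext <;> simp
  right_inv q := by
    apply Quaternion.ext <;> simp
  map_add' p q := by
    apply Quaternion.ext <;>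
      simp only [Quaternion.re_add, Quaternion.imI_add, Quaternion.imJ_add, Quaternion.imK_add,
        lq_re, lq_imI, lq_imJ, lq_imK, Prod.fst_add, Prod.snd_add, Complex.add_re, Complex.add_im]
    ring
  map_smul' r p := by
    apply Quaternion.ext <;>
      simp only [Quaternion.re_smul, Quaternion.imI_smul, Quaternion.imJ_smul, Quaternion.imK_smul,
        lq_re, lq_imI, lq_imJ, lq_imK, Prod.smul_fst, Prod.smul_snd, Complex.real_smul,
        Complex.re_ofReal_mul, Complex.im_ofReal_mul, smul_eq_mul, RingHom.id_apply]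
    ring

theorem Lq_apply (z w : ℂ) : Lq (z, w) = lq z w := rfl

theorem normSq_lq (z w : ℂ) : ‖lq z w‖ ^ 2 = ‖z‖ ^ 2 + ‖w‖ ^ 2 := by
  rw [pow_two, ← Quaternion.normSq_eq_norm_mul_self, Quaternion.normSq_def',
    Complex.sq_norm, Complex.sq_norm, Complex.normSq_apply, Complex.normSq_apply,
    lq_re, lq_imI, lq_imJ, lq_imK]
  ring

/-- unit complex number `e^{it}` -/
noncomputable def cis (t : ℝ) : ℂ := ⟨Real.cos t, Real.sin t⟩

theorem cis_re (t : ℝ) : (cis t).re = Real.cos t := rfl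
theorem cis_im (t : ℝ) : (cis t).im = Real.sin t := rfl

theorem norm_cis (t : ℝ) : ‖cis t‖ = 1 := by
  have h : ‖cis t‖ ^ 2 = 1 := by
    rw [Complex.sq_norm, Complex.normSq_apply, cis_re, cis_im]
    nlinarith [Real.sin_sq_add_cos_sq t]
  nlinarith [norm_nonneg (cis t)]

theorem cis_add (s t : ℝ) : cis (s + t) = cis s * cis t := by
  apply Complex.ext
  · rw [cis_re, Complex.mul_re, cis_re, cis_re, cis_im, cis_im, Real.cos_add]
  · rw [cis_im, Complex.mul_im, cis_re, cis_re, cis_im, cis_im, Real.sin_add]; ring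

theorem cis_zero : cis 0 = 1 := by
  apply Complex.ext <;> simp [cis]

theorem continuous_cis : Continuous cis := by
  have : cis = fun t : ℝ => (Real.cos t : ℂ) + (Real.sin t : ℂ) * Complex.I := by
    funext t
    apply Complex.ext <;> simp [cis, -Complex.ofReal_cos, -Complex.ofReal_sin]
  rw [this]
  fun_prop

theorem rot_comp (a : ℍ) (t : ℝ) : (rot a t).re = Real.cos (t / 2) + Real.sin (t / 2) * a.re ∧
    (rot a t).imI = Real.sin (t / 2) * a.imI ∧ (rot a t).imJ = Real.sin (t / 2) * a.imJ ∧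
    (rot a t).imK = Real.sin (t / 2) * a.imK := by
  refine ⟨?_, ?_, ?_, ?_⟩ <;>
  simp only [rot, Quaternion.re_add, Quaternion.imI_add, Quaternion.imJ_add, Quaternion.imK_add,
      Quaternion.re_smul, Quaternion.imI_smul, Quaternion.imJ_smul, Quaternion.imK_smul,
      Quaternion.re_one, Quaternion.imI_one, Quaternion.imJ_one, Quaternion.imK_one, smul_eq_mul] <;>
  ring

theorem rotI_eq (t : ℝ) : rot qI t = lq (cis (t / 2)) 0 := by
  obtain ⟨h1, h2, h3, h4⟩ := rot_comp qI t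
  apply Quaternion.ext
  · rw [h1, lq_re, cis_re]; simp [qI]
  · rw [h2, lq_imI, cis_im]; simp [qI]
  · rw [h3, lq_imJ]; simp [qI]
  · rw [h4, lq_imK]; simp [qI]

theorem rotK_eq (r : ℝ) : rot qK r = lq (Real.cos (r / 2) : ℝ) (Real.sin (r / 2) : ℝ) := by
  obtain ⟨h1, h2, h3, h4⟩ := rot_comp qK r
  apply Quaternion.ext
  · rw [h1, lq_re, Complex.ofReal_re]; simp [qK]
  · rw [h2, lq_imI, Complex.ofReal_im]; simp [qK]
  · rw [h3, lq_imJ, Complex.ofReal_im]; simp [qK]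
  · rw [h4, lq_imK, Complex.ofReal_re]; simp [qK]

theorem lq_mul (z w z' w' : ℂ) : lq z w * lq z' w'
    = lq (z * z' - w * (starRingEnd ℂ) w') (z * w' + w * (starRingEnd ℂ) z') := by
  apply Quaternion.ext
  · rw [Quaternion.re_mul]
    simp only [lq_re, lq_imI, lq_imJ, lq_imK, Complex.sub_re, Complex.mul_re, Complex.conj_re,
      Complex.conj_im]
    ring
  · rw [Quaternion.imI_mul]
    simp only [lq_re, lq_imI, lq_imJ, lq_imK, Complex.sub_im, Complex.mul_im, Complex.conj_re,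
      Complex.conj_im]
    ring
  · rw [Quaternion.imJ_mul]
    simp only [lq_re, lq_imI, lq_imJ, lq_imK, Complex.add_im, Complex.mul_im, Complex.conj_re,
      Complex.conj_im]
    ring
  · rw [Quaternion.imK_mul]
    simp only [lq_re, lq_imI, lq_imJ, lq_imK, Complex.add_re, Complex.mul_re, Complex.conj_re,
      Complex.conj_im]
    ring

theorem conj_cis (t : ℝ) : (starRingEnd ℂ) (cis t) = cis (-t) := by
  apply Complex.ext
  · rw [Complex.conj_re, cis_re, cis_re, Real.cos_neg]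
  · rw [Complex.conj_im, cis_im, cis_im, Real.sin_neg]

theorem lq_mul_rotI (z w : ℂ) (t : ℝ) :
    lq z w * rot qI t = lq (z * cis (t / 2)) (w * cis (-(t / 2))) := by
  rw [rotI_eq, lq_mul, conj_cis]
  simp

theorem rotI_mul_rotK (θ r : ℝ) :
    rot qI θ * rot qK r = lq ((Real.cos (r / 2) : ℝ) * cis (θ / 2))
      ((Real.sin (r / 2) : ℝ) * cis (θ / 2)) := by
  rw [rotI_eq, rotK_eq, lq_mul]
  congr 1
  · simp [mul_comm]
  · simp [mul_comm]

/-- the continuous linear equivalence -/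
noncomputable def LqC : (ℂ × ℂ) ≃L[ℝ] ℍ := Lq.toContinuousLinearEquiv

theorem LqC_apply (p : ℂ × ℂ) : LqC p = lq p.1 p.2 := rfl

theorem exists_const : ∃ c : ℝ, 0 < c ∧ ∀ f : ℍ → ℝ,
    ∫ x, f x = c * ∫ p : ℂ × ℂ, f (lq p.1 p.2) := by
  have h0 : (volume : Measure (ℂ × ℂ)).IsAddHaarMeasure :=
    inferInstanceAs ((volume : Measure ℂ).prod (volume : Measure ℂ)).IsAddHaarMeasure
  have h1 : (Measure.map LqC (volume : Measure (ℂ × ℂ))).IsAddHaarMeasure :=
    LqC.isAddHaarMeasure_map _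
  have h2 := Measure.isAddLeftInvariant_eq_smul (volume : Measure ℍ)
    (Measure.map LqC (volume : Measure (ℂ × ℂ)))
  have h4 := Measure.addHaarScalarFactor_pos_of_isAddHaarMeasure (volume : Measure ℍ)
    (Measure.map LqC (volume : Measure (ℂ × ℂ)))
  refine ⟨_, NNReal.coe_pos.2 h4, fun f => ?_⟩
  have h3 : MeasurableEmbedding LqC := LqC.toHomeomorph.measurableEmbedding
  calc ∫ x, f x = ∫ x, f x ∂(Measure.addHaarScalarFactor (volume : Measure ℍ)
        (Measure.map LqC (volume : Measure (ℂ × ℂ))) •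
        (Measure.map LqC (volume : Measure (ℂ × ℂ)))) := by rw [← h2]
    _ = _ := by
        rw [integral_smul_nnreal_measure, h3.integral_map]
        rfl


/-- the function on `ℂ × ℂ` -/
noncomputable def Gf (F : ℍ → ℝ) (z w : ℂ) : ℝ := shell.indicator F (lq z w)

theorem continuous_lq : Continuous (fun p : ℂ × ℂ => lq p.1 p.2) := LqC.continuous

section
variable {F : ℍ → ℝ} (hm : Measurable F) {M : ℝ} (hM : ∀ x ∈ shell, |F x| ≤ M)
  (hrot : ∀ (x : ℍ) (t : ℝ), F (x * rot qI t) = F x)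

include hm in
theorem measurable_Gf : Measurable (fun p : ℂ × ℂ => Gf F p.1 p.2) :=
  (hm.indicator measurableSet_shell).comp continuous_lq.measurable

include hM in
theorem abs_Gf_le (hM0 : 0 ≤ M) (z w : ℂ) : |Gf F z w| ≤ M := by
  unfold Gf
  by_cases h : lq z w ∈ shell
  · rw [indicator_of_mem h]; exact hM _ h
  · rw [indicator_of_notMem h]; simpa using hM0

theorem Gf_ne_zero {z w : ℂ} (h : Gf F z w ≠ 0) : ‖z‖ ≤ 2 ∧ ‖w‖ ≤ 2 := by
  have h1 : lq z w ∈ shell := by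
    by_contra hcon
    exact h (indicator_of_notMem hcon _)
  have h2 : ‖lq z w‖ ^ 2 ≤ 2 ^ 2 := pow_le_pow_left₀ (norm_nonneg _) h1.2 2
  rw [normSq_lq] at h2
  constructor
  · nlinarith [norm_nonneg z, norm_nonneg w, sq_nonneg ‖w‖]
  · nlinarith [norm_nonneg z, norm_nonneg w, sq_nonneg ‖z‖]

include hrot in
theorem Gf_cis (z w : ℂ) (t : ℝ) : Gf F (z * cis t) (w * cis (-t)) = Gf F z w := by
  have h1 : lq (z * cis t) (w * cis (-t)) = lq z w * rot qI (2 * t) := by
    rw [lq_mul_rotI]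
    congr 3 <;> ring
  unfold Gf
  rw [h1]
  by_cases h : lq z w ∈ shell
  · rw [indicator_of_mem h, indicator_of_mem ((mul_mem_shell (norm_rot isImUnit_I _)).2 h), hrot]
  · rw [indicator_of_notMem h, indicator_of_notMem
      (fun h' => h ((mul_mem_shell (norm_rot isImUnit_I _)).1 h'))]

include hm hM in
theorem integrable_Gf (hM0 : 0 ≤ M) :
    Integrable (fun p : ℂ × ℂ => Gf F p.1 p.2) (volume.prod volume) := by
  have h1 : IntegrableOn (fun p : ℂ × ℂ => Gf F p.1 p.2)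
      (Metric.closedBall (0:ℂ) 2 ×ˢ Metric.closedBall (0:ℂ) 2) (volume.prod volume) := by
    refine Measure.integrableOn_of_bounded (M := M) ?_
      (measurable_Gf hm).aestronglyMeasurable ?_
    · exact ((isCompact_closedBall _ _).prod (isCompact_closedBall _ _)).measure_lt_top.ne
    · exact Eventually.of_forall (fun p => by
        rw [Real.norm_eq_abs]; exact abs_Gf_le hM hM0 _ _)
  rwa [integrableOn_iff_integrable_of_support_subset] at h1
  intro p hp
  have := Gf_ne_zero (Function.mem_support.1 hp)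
  simp only [mem_prod, Metric.mem_closedBall, dist_zero_right]
  exact this

/-- the inner integral -/
noncomputable def psi0 (F : ℍ → ℝ) (z : ℂ) : ℝ := ∫ w : ℂ, Gf F z w

include hrot in
theorem psi0_cis (z : ℂ) (t : ℝ) : psi0 F (z * cis t) = psi0 F z := by
  unfold psi0
  have hu : ((Circle.exp (-t) : Circle) : ℂ) = cis (-t) := by
    rw [Circle.coe_exp]
    apply Complex.ext
    · rw [Complex.exp_ofReal_mul_I_re, cis_re]
    · rw [Complex.exp_ofReal_mul_I_im, cis_im]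
  have h1 := (rotation (Circle.exp (-t))).measurePreserving
  have h2 := h1.integral_comp (rotation (Circle.exp (-t))).toMeasurableEquiv.measurableEmbedding
    (fun w => Gf F (z * cis t) w)
  rw [← h2]
  congr 1
  funext w
  rw [rotation_apply, hu, mul_comm (cis (-t))]
  exact Gf_cis hrot z w t

theorem polar_symm (p : ℝ × ℝ) : Complex.polarCoord.symm p = (p.1 : ℂ) * cis p.2 := by
  rw [Complex.polarCoord_symm_apply]
  congr 1
  apply Complex.ext <;> simp [cis, -Complex.ofReal_cos, -Complex.ofReal_sin]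

include hrot in
theorem integral_psi0 : ∫ z : ℂ, psi0 F z = (2 * π) * ∫ r in Ioi (0:ℝ), r * psi0 F (r : ℂ) := by
  rw [← Complex.integral_comp_polarCoord_symm, polarCoord_target]
  have h1 : ∀ p : ℝ × ℝ, p.1 • psi0 F (Complex.polarCoord.symm p)
      = (p.1 * psi0 F (p.1 : ℂ)) * (fun _ : ℝ => (1:ℝ)) p.2 := by
    intro p
    rw [polar_symm, psi0_cis hrot]
    simp
  simp_rw [h1]
  rw [Measure.volume_eq_prod, setIntegral_prod_mul (fun r : ℝ => r * psi0 F (r : ℂ))
    (fun _ : ℝ => (1:ℝ))]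
  have h2 : ∫ _y in Ioo (-π) π, (1:ℝ) = 2 * π := by
    rw [setIntegral_const, Real.volume_real_Ioo_of_le (by linarith [Real.pi_pos])]
    simp; ring
  rw [h2]; ring

theorem psi0_polar (z : ℂ) : psi0 F z
    = ∫ p in Ioi (0:ℝ) ×ˢ Ioo (-π) π, p.1 * Gf F z ((p.1 : ℂ) * cis p.2) := by
  unfold psi0
  rw [← Complex.integral_comp_polarCoord_symm, polarCoord_target]
  simp_rw [polar_symm, smul_eq_mul]

/-- the threefold integrand -/
noncomputable def K3 (F : ℍ → ℝ) (q : ℝ × ℝ × ℝ) : ℝ :=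
  q.1 * (q.2.1 * Gf F (q.1 : ℂ) ((q.2.1 : ℂ) * cis q.2.2))

include hm in
theorem measurable_K3 : Measurable (K3 F) := by
  have h1 : Measurable (fun q : ℝ × ℝ × ℝ => ((q.1 : ℂ), (q.2.1 : ℂ) * cis q.2.2)) := by
    apply Measurable.prodMk
    · fun_prop
    · exact (by fun_prop : Measurable fun q : ℝ × ℝ × ℝ => (q.2.1 : ℂ)).mul
        (continuous_cis.measurable.comp (by fun_prop))
  have h2 := (measurable_Gf hm).comp h1
  exact measurable_fst.mul ((measurable_fst.comp measurable_snd).mul h2)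

include hm hM in
theorem integrableOn_K3 (hM0 : 0 ≤ M) :
    IntegrableOn (K3 F) (Ioi (0:ℝ) ×ˢ (Ioi (0:ℝ) ×ˢ Ioo (-π) π))
      (volume.prod (volume.prod volume)) := by
  have hms : MeasurableSet (Ioi (0:ℝ) ×ˢ (Ioi (0:ℝ) ×ˢ Ioo (-π) π)) :=
    measurableSet_Ioi.prod (measurableSet_Ioi.prod measurableSet_Ioo)
  have h1 : IntegrableOn (K3 F) (Ioc (0:ℝ) 2 ×ˢ (Ioc (0:ℝ) 2 ×ˢ Ioo (-π) π))
      (volume.prod (volume.prod volume)) := by
    refine Measure.integrableOn_of_bounded (M := 4 * M) ?_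
      (measurable_K3 hm).aestronglyMeasurable ?_
    · rw [Measure.prod_prod, Measure.prod_prod]
      simp only [Real.volume_Ioc, Real.volume_Ioo]
      exact ENNReal.mul_ne_top ENNReal.ofReal_ne_top
        (ENNReal.mul_ne_top ENNReal.ofReal_ne_top ENNReal.ofReal_ne_top)
    · rw [ae_restrict_iff' (measurableSet_Ioc.prod (measurableSet_Ioc.prod measurableSet_Ioo))]
      refine Eventually.of_forall (fun q hq => ?_)
      obtain ⟨⟨a1, a2⟩, ⟨b1, b2⟩, _⟩ := hq
      rw [Real.norm_eq_abs, K3, abs_mul, abs_mul, abs_of_pos a1, abs_of_pos b1]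
      have h3 := abs_Gf_le hM hM0 (q.1 : ℂ) ((q.2.1 : ℂ) * cis q.2.2)
      have h4 : q.2.1 * |Gf F (q.1 : ℂ) ((q.2.1 : ℂ) * cis q.2.2)| ≤ 2 * M :=
        mul_le_mul b2 h3 (abs_nonneg _) (by norm_num)
      have h5 : 0 ≤ q.2.1 * |Gf F (q.1 : ℂ) ((q.2.1 : ℂ) * cis q.2.2)| :=
        mul_nonneg b1.le (abs_nonneg _)
      calc q.1 * (q.2.1 * |Gf F (q.1 : ℂ) ((q.2.1 : ℂ) * cis q.2.2)|) ≤ 2 * (2 * M) :=
            mul_le_mul a2 h4 h5 (by norm_num)
        _ = 4 * M := by ring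
  refine h1.of_forall_sdiff_eq_zero hms ?_
  rintro ⟨r, s, β⟩ ⟨⟨hr, hs, hβ⟩, hq2⟩
  simp only [mem_Ioi] at hr hs
  rw [K3]
  by_contra hne
  have hG : Gf F (r : ℂ) ((s : ℂ) * cis β) ≠ 0 := by
    intro h0
    apply hne
    simp only [h0, mul_zero]
  obtain ⟨g1, g2⟩ := Gf_ne_zero hG
  rw [norm_mul, norm_cis, mul_one, Complex.norm_real, Real.norm_eq_abs, abs_of_pos hs] at g2
  rw [Complex.norm_real, Real.norm_eq_abs, abs_of_pos hr] at g1
  exact hq2 ⟨⟨hr, g1⟩, ⟨hs, g2⟩, hβ⟩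

include hm hM in
theorem fubini3 (hM0 : 0 ≤ M) : ∫ r in Ioi (0:ℝ), r * psi0 F (r : ℂ)
    = ∫ β in Ioo (-π) π, ∫ q in Ioi (0:ℝ) ×ˢ Ioi (0:ℝ),
        q.1 * (q.2 * Gf F (q.1 : ℂ) ((q.2 : ℂ) * cis β)) := by
  have hI := integrableOn_K3 hm hM hM0
  have e1 : ((volume : Measure ℝ).prod ((volume : Measure ℝ).prod (volume : Measure ℝ))).restrict
      (Ioi (0:ℝ) ×ˢ (Ioi (0:ℝ) ×ˢ Ioo (-π) π))
      = (volume.restrict (Ioi (0:ℝ))).prod ((volume.restrict (Ioi (0:ℝ))).prod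
        (volume.restrict (Ioo (-π) π))) := by
    rw [Measure.prod_restrict, Measure.prod_restrict]
  rw [IntegrableOn, e1] at hI
  have h1 : ∫ r in Ioi (0:ℝ), r * psi0 F (r : ℂ)
      = ∫ q, K3 F q ∂((volume.restrict (Ioi (0:ℝ))).prod ((volume.restrict (Ioi (0:ℝ))).prod
        (volume.restrict (Ioo (-π) π)))) := by
    rw [integral_prod _ hI]
    congr 1
    funext r
    rw [psi0_polar, Measure.prod_restrict, ← integral_const_mul]
    rfl
  rw [h1]
  have h2 := Measure.prodAssoc_prod (μ := (volume.restrict (Ioi (0:ℝ))))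
    (ν := (volume.restrict (Ioi (0:ℝ)))) (τ := (volume.restrict (Ioo (-π) π)))
  rw [← h2] at hI ⊢
  rw [MeasurableEquiv.prodAssoc.measurableEmbedding.integral_map]
  have hI2 : Integrable (fun p : (ℝ × ℝ) × ℝ => K3 F (MeasurableEquiv.prodAssoc p))
      (((volume.restrict (Ioi (0:ℝ))).prod (volume.restrict (Ioi (0:ℝ)))).prod
        (volume.restrict (Ioo (-π) π))) :=
    (MeasurableEquiv.prodAssoc.measurableEmbedding.integrable_map_iff).1 hI
  rw [integral_prod_symm _ hI2]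
  congr 1
  funext β
  rw [Measure.prod_restrict]
  rfl


/-- radial constant -/
theorem radial_const : ∫ ρ in Ioi (0:ℝ), (Icc (1:ℝ) 2).indicator (fun ρ => ρ ^ 3) ρ = 15 / 4 := by
  rw [setIntegral_indicator measurableSet_Icc]
  have h1 : Ioi (0:ℝ) ∩ Icc 1 2 = Icc 1 2 := by
    ext x; simp only [mem_inter_iff, mem_Ioi, mem_Icc]; constructor
    · exact fun h => h.2
    · exact fun h => ⟨by linarith [h.1], h⟩
  rw [h1, integral_Icc_eq_integral_Ioc, ← intervalIntegral.integral_of_le (by norm_num),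
    integral_pow]
  norm_num

theorem lq_ne_zero (φ β : ℝ) : lq (Real.cos φ : ℝ) ((Real.sin φ : ℝ) * cis β) ≠ 0 := by
  intro h
  have h1 := normSq_lq (Real.cos φ : ℝ) ((Real.sin φ : ℝ) * cis β)
  rw [h, norm_zero, norm_mul, norm_cis, mul_one, Complex.norm_real, Complex.norm_real,
    Real.norm_eq_abs, Real.norm_eq_abs, sq_abs, sq_abs] at h1
  have := Real.sin_sq_add_cos_sq φ
  nlinarith

theorem norm_lq_one (φ β : ℝ) : ‖lq (Real.cos φ : ℝ) ((Real.sin φ : ℝ) * cis β)‖ = 1 := by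
  have h1 := normSq_lq (Real.cos φ : ℝ) ((Real.sin φ : ℝ) * cis β)
  rw [norm_mul, norm_cis, mul_one, Complex.norm_real, Complex.norm_real,
    Real.norm_eq_abs, Real.norm_eq_abs, sq_abs, sq_abs, Real.cos_sq_add_sin_sq] at h1
  nlinarith [norm_nonneg (lq (Real.cos φ : ℝ) ((Real.sin φ : ℝ) * cis β))]

/-- the integrand of the final formula -/
noncomputable def Hf (F : ℍ → ℝ) (β φ : ℝ) : ℝ :=
  Real.cos φ * Real.sin φ * F (lq (Real.cos φ : ℝ) ((Real.sin φ : ℝ) * cis β))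

theorem Gf_polar (hhom : ∀ (r : ℝ) (x : ℍ), r ≠ 0 → x ≠ 0 → F (r • x) = F x) {ρ : ℝ} (hρ : 0 < ρ)
    (φ β : ℝ) : Gf F ((ρ * Real.cos φ : ℝ) : ℂ) (((ρ * Real.sin φ : ℝ) : ℂ) * cis β)
      = (Icc (1:ℝ) 2).indicator (fun _ => F (lq (Real.cos φ : ℝ) ((Real.sin φ : ℝ) * cis β))) ρ := by
  have h1 : lq ((ρ * Real.cos φ : ℝ) : ℂ) (((ρ * Real.sin φ : ℝ) : ℂ) * cis β)
      = ρ • lq (Real.cos φ : ℝ) ((Real.sin φ : ℝ) * cis β) := by
    apply Quaternion.ext <;>
    simp only [lq_re, lq_imI, lq_imJ, lq_imK, Quaternion.re_smul, Quaternion.imI_smul,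
      Quaternion.imJ_smul, Quaternion.imK_smul, Complex.ofReal_re, Complex.ofReal_im,
      Complex.mul_re, Complex.mul_im, smul_eq_mul] <;> ring
  unfold Gf
  rw [h1]
  have h2 : ρ • lq (Real.cos φ : ℝ) ((Real.sin φ : ℝ) * cis β) ∈ shell ↔ ρ ∈ Icc (1:ℝ) 2 := by
    simp only [shell, mem_ofPred_eq, norm_smul, norm_lq_one, mul_one, Real.norm_eq_abs,
      abs_of_pos hρ, mem_Icc]
  by_cases h : ρ ∈ Icc (1:ℝ) 2
  · rw [indicator_of_mem h, indicator_of_mem (h2.2 h), hhom ρ _ hρ.ne' (lq_ne_zero φ β)]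
  · rw [indicator_of_notMem h, indicator_of_notMem (fun h' => h (h2.1 h'))]

theorem quadrant (hhom : ∀ (r : ℝ) (x : ℍ), r ≠ 0 → x ≠ 0 → F (r • x) = F x) (β : ℝ) :
    ∫ q in Ioi (0:ℝ) ×ˢ Ioi (0:ℝ), q.1 * (q.2 * Gf F (q.1 : ℂ) ((q.2 : ℂ) * cis β))
      = 15 / 4 * ∫ φ in (0:ℝ)..(π / 2), Hf F β φ := by
  rw [← integral_indicator (measurableSet_Ioi.prod measurableSet_Ioi),
    ← integral_comp_polarCoord_symm, polarCoord_target]
  have h1 : ∀ p ∈ Ioi (0:ℝ) ×ˢ Ioo (-π) π, p.1 •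
      (Ioi (0:ℝ) ×ˢ Ioi (0:ℝ)).indicator
        (fun q : ℝ × ℝ => q.1 * (q.2 * Gf F (q.1 : ℂ) ((q.2 : ℂ) * cis β))) (polarCoord.symm p)
      = (fun ρ : ℝ => (Icc (1:ℝ) 2).indicator (fun ρ => ρ ^ 3) ρ) p.1 *
        (fun φ : ℝ => (Ioo 0 (π / 2)).indicator (fun φ => Hf F β φ) φ) p.2 := by
    rintro ⟨ρ, φ⟩ ⟨hρ, hφ⟩
    simp only [mem_Ioi] at hρ
    simp only
    rw [polarCoord_symm_apply]
    simp only
    by_cases hφ2 : φ ∈ Ioo 0 (π / 2)
    · have hc : 0 < Real.cos φ := Real.cos_pos_of_mem_Ioo ⟨by linarith [hφ2.1, Real.pi_pos], hφ2.2⟩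
      have hs : 0 < Real.sin φ := Real.sin_pos_of_pos_of_lt_pi hφ2.1 hφ.2
      have hmem : (ρ * Real.cos φ, ρ * Real.sin φ) ∈ Ioi (0:ℝ) ×ˢ Ioi (0:ℝ) :=
        ⟨mul_pos hρ hc, mul_pos hρ hs⟩
      rw [indicator_of_mem hmem, indicator_of_mem hφ2]
      simp only
      rw [Gf_polar hhom hρ]
      by_cases h : ρ ∈ Icc (1:ℝ) 2
      · rw [indicator_of_mem h, indicator_of_mem h, Hf, smul_eq_mul]; ring
      · rw [indicator_of_notMem h, indicator_of_notMem h, smul_eq_mul]; ring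
    · have hnot : (ρ * Real.cos φ, ρ * Real.sin φ) ∉ Ioi (0:ℝ) ×ˢ Ioi (0:ℝ) := by
        rintro ⟨hc, hs⟩
        simp only [mem_Ioi] at hc hs
        have hc' : 0 < Real.cos φ := (mul_pos_iff_of_pos_left hρ).1 hc
        have hs' : 0 < Real.sin φ := (mul_pos_iff_of_pos_left hρ).1 hs
        apply hφ2
        constructor
        · by_contra hcon
          push Not at hcon
          have := Real.sin_nonpos_of_nonpos_of_neg_pi_le hcon hφ.1.le
          linarith
        · by_contra hcon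
          push Not at hcon
          have := Real.cos_nonpos_of_pi_div_two_le_of_le hcon (by linarith [hφ.2, Real.pi_pos])
          linarith
      rw [indicator_of_notMem hnot, indicator_of_notMem hφ2]
      simp
  rw [setIntegral_congr_fun (measurableSet_Ioi.prod measurableSet_Ioo) h1, Measure.volume_eq_prod,
    setIntegral_prod_mul, radial_const, setIntegral_indicator measurableSet_Ioo]
  have h2 : Ioo (-π) π ∩ Ioo 0 (π / 2) = Ioo 0 (π / 2) := by
    ext x; simp only [mem_inter_iff, mem_Ioo]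
    constructor
    · exact fun h => h.2
    · exact fun h => ⟨⟨by linarith [h.1, Real.pi_pos], by linarith [h.2, Real.pi_pos]⟩, h⟩
  rw [h2, intervalIntegral.integral_of_le (by positivity), integral_Ioc_eq_integral_Ioo]

end

theorem F_rot_rot {F : ℍ → ℝ} (hrot : ∀ (x : ℍ) (t : ℝ), F (x * rot qI t) = F x) (θ r : ℝ) :
    F (rot qI θ * rot qK r) = F (lq (Real.cos (r / 2) : ℝ) ((Real.sin (r / 2) : ℝ) * cis θ)) := by
  have h1 : rot qI θ * rot qK r
      = lq (Real.cos (r / 2) : ℝ) ((Real.sin (r / 2) : ℝ) * cis θ) * rot qI θ := by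
    rw [lq_mul_rotI, rotI_mul_rotK]
    congr 1
    rw [mul_assoc, ← cis_add]
    congr 2; ring
  rw [h1, hrot]

theorem inner_eq {F : ℍ → ℝ} (hrot : ∀ (x : ℍ) (t : ℝ), F (x * rot qI t) = F x) (θ : ℝ) :
    ∫ r in (0:ℝ)..π, F (rot qI θ * rot qK r) * Real.sin r
      = 4 * ∫ φ in (0:ℝ)..(π / 2), Hf F θ φ := by
  have h1 : ∀ r : ℝ, F (rot qI θ * rot qK r) * Real.sin r = (fun φ => 2 * Hf F θ φ) (r / 2) := by
    intro r
    rw [F_rot_rot hrot]
    simp only [Hf]
    have : Real.sin r = 2 * Real.sin (r / 2) * Real.cos (r / 2) := by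
      rw [← Real.sin_two_mul]; congr 1; ring
    rw [this]; ring
  simp_rw [h1]
  rw [intervalIntegral.integral_comp_div (fun φ => 2 * Hf F θ φ) (by norm_num : (2:ℝ) ≠ 0),
    intervalIntegral.integral_const_mul]
  simp only [zero_div, smul_eq_mul]
  ring

theorem cis_add_two_pi (θ : ℝ) : cis (θ + 2 * π) = cis θ := by
  apply Complex.ext
  · rw [cis_re, cis_re, Real.cos_add_two_pi]
  · rw [cis_im, cis_im, Real.sin_add_two_pi]

/-- functions that are continuous and homogeneous off the origin are bounded there -/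
theorem Cts.exists_bound {f : ℍ → ℝ} (hf : Cts f) : ∃ M : ℝ, 0 ≤ M ∧ ∀ x : ℍ, x ≠ 0 → |f x| ≤ M := by
  obtain ⟨M, hM⟩ := isCompact_shell.exists_bound_of_continuousOn (hf.cont.mono shell_subset)
  refine ⟨max M 0, le_max_right _ _, fun x hx => ?_⟩
  have hn : ‖x‖ ≠ 0 := norm_ne_zero_iff.2 hx
  have hmem : (‖x‖⁻¹ • x) ∈ shell := by
    have : ‖(‖x‖⁻¹ • x)‖ = 1 := by
      rw [norm_smul, norm_inv, norm_norm, inv_mul_cancel₀ hn]
    constructor <;> rw [this]
    norm_num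
  rw [← hf.hom ‖x‖⁻¹ x (inv_ne_zero hn) hx]
  exact le_trans (hM _ hmem) (le_max_left _ _)

theorem Cts.measurable {f : ℍ → ℝ} (hf : Cts f) : Measurable f :=
  measurable_of_continuousOn_compl_singleton 0 hf.cont

theorem sphere_at_one : ∃ c : ℝ, 0 < c ∧ ∀ F : ℍ → ℝ, Cts F →
    (∀ (x : ℍ) (t : ℝ), F (x * rot qI t) = F x) →
    ∫ z in shell, F z =
      c * ∫ θ in (0:ℝ)..(2 * π), ∫ r in (0:ℝ)..π, F (rot qI θ * rot qK r) * Real.sin r := by
  obtain ⟨c₀, hc₀, h0⟩ := exists_const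
  refine ⟨c₀ * (2 * π) * (15 / 4) / 4, by positivity, fun F hF hrot => ?_⟩
  have hm : Measurable F := Cts.measurable hF
  obtain ⟨M, hM0, hM1⟩ := Cts.exists_bound hF
  have hM : ∀ x ∈ shell, |F x| ≤ M := fun x hx => hM1 x (ne_zero_of_mem_shell hx)
  have e1 : ∫ z in shell, F z = c₀ * ∫ p : ℂ × ℂ, Gf F p.1 p.2 := by
    rw [← integral_indicator measurableSet_shell, h0]
    rfl
  have e2 : ∫ p : ℂ × ℂ, Gf F p.1 p.2 = ∫ z : ℂ, psi0 F z := by
    rw [Measure.volume_eq_prod, integral_prod _ (integrable_Gf hm hM hM0)]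
    rfl
  have e3 : ∀ β : ℝ, ∫ q in Ioi (0:ℝ) ×ˢ Ioi (0:ℝ),
        q.1 * (q.2 * Gf F (q.1 : ℂ) ((q.2 : ℂ) * cis β))
      = 15 / 4 / 4 * ∫ r in (0:ℝ)..π, F (rot qI β * rot qK r) * Real.sin r := by
    intro β
    rw [quadrant hF.hom, inner_eq hrot]; ring
  rw [e1, e2, integral_psi0 hrot, fubini3 hm hM hM0]
  simp_rw [e3]
  rw [integral_const_mul]
  have hper : Function.Periodic
      (fun β => ∫ r in (0:ℝ)..π, F (rot qI β * rot qK r) * Real.sin r) (2 * π) := by
    intro β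
    simp only
    congr 1
    funext r
    rw [F_rot_rot hrot, F_rot_rot hrot, cis_add_two_pi]
  have e4 : ∫ β in Ioo (-π) π, ∫ r in (0:ℝ)..π, F (rot qI β * rot qK r) * Real.sin r
      = ∫ θ in (0:ℝ)..(2 * π), ∫ r in (0:ℝ)..π, F (rot qI θ * rot qK r) * Real.sin r := by
    rw [← integral_Ioc_eq_integral_Ioo, ← intervalIntegral.integral_of_le
      (by linarith [Real.pi_pos])]
    have h1 := hper.intervalIntegral_add_eq (-π) 0
    rw [zero_add] at h1
    rw [← h1]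
    congr 1; ring
  rw [e4]
  ring

theorem sphere_holds : SphereStatement := by
  obtain ⟨c, hc, h⟩ := sphere_at_one
  refine ⟨c, hc, fun f hf hU x hx => ?_⟩
  have hn : ‖x‖ ≠ 0 := norm_ne_zero_iff.2 hx
  set ρ : ℍ := ‖x‖⁻¹ • x with hρ
  have hρ1 : ‖ρ‖ = 1 := by
    rw [hρ, norm_smul, norm_inv, norm_norm, inv_mul_cancel₀ hn]
  have hρ0 : ρ ≠ 0 := by
    intro h0
    rw [h0, norm_zero] at hρ1
    exact zero_ne_one hρ1
  have hF : Cts (fun z => f (ρ * z)) := by
    constructor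
    · apply hf.cont.comp (by fun_prop)
      intro z hz
      exact mul_ne_zero hρ0 hz
    · intro r z hr hz
      rw [mul_smul_comm, hf.hom r _ hr (mul_ne_zero hρ0 hz)]
  have hrot : ∀ (z : ℍ) (t : ℝ), f (ρ * (z * rot qI t)) = f (ρ * z) := by
    intro z t
    rw [← mul_assoc, hU.rotI]
  have h1 := h (fun z => f (ρ * z)) hF hrot
  rw [integral_shell_lmul hρ1] at h1
  rw [h1]
  congr 2
  funext θ
  congr 1
  funext r
  congr 1
  rw [hρ, smul_mul_assoc, hf.hom _ _ (inv_ne_zero hn), mul_assoc]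
  exact mul_ne_zero hx (mul_ne_zero (rot_ne_zero isImUnit_I _) (rot_ne_zero isImUnit_K _))

end Pool.Agent.MP85963d.H59
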