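import Mathlib
import Pool.Agent.Lib.MP_85963d_gt.Interfaces

/-!
# Module GN: the Gagliardo-Nirenberg type inequality (2.7)
-/

set_option autoImplicit false

open MeasureTheory Set Filter Topology Quaternion
open scoped Real ContDiff

namespace Pool.Agent.MP85963d.H59

open SF

/-- all six fields are skew -/
theorem ip_Dlet (i : Fin 6) (F G : SF) : ip (Dlet i F) G = - ip F (Dlet i G) := by
  fin_cases i
  · exact ip_DX F G
  · exact ip_DV F G
  · exact ip_DH F G
  · exact ip_DZ 0 F G
  · exact ip_DZ 1 F G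
  · exact ip_DZ 2 F G

theorem gn_holds : GNStatement := by
  intro i η S hS
  have hS0 : 0 ≤ S := le_trans (abs_nonneg _) (hS 1)
  set u : SF := Dlet i η with hu
  set N : ℝ := nrm (fun x => u x ^ 2) with hN
  have hN0 : 0 ≤ N := nrm_nonneg _
  -- the fourth power
  have h1 : N ^ 2 = ip u (u * (u * u) : SF) := by
    rw [hN, nrm_sq, ip]
    congr 1
    funext x
    simp only [mul_apply]
    ring
  have h2 : ip u (u * (u * u) : SF) = - ip η (Dlet i (u * (u * u))) := ip_Dlet i η _
  have h3 : Dlet i (u * (u * u)) = (3 : ℝ) • ((u * u) * Dlet i u) := by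
    rw [Derivation.leibniz, Derivation.leibniz]
    simp only [smul_eq_mul]
    have : ((3 : ℝ) • ((u * u) * Dlet i u) : SF) = (3 : SF) * ((u * u) * Dlet i u) := by
      rw [Algebra.smul_def, map_ofNat (algebraMap ℝ SF) 3]
    rw [this]
    ring
  have h4 : |ip η (Dlet i (u * (u * u)))| ≤ 3 * S * (N * nrm (Dlet i u)) := by
    rw [h3]
    have e1 : ip η ((3 : ℝ) • ((u * u) * Dlet i u) : SF)
        = 3 * ip (fun x => u x ^ 2) (fun x => η x * (Dlet i u) x) := by
      rw [ip, ip, ← integral_const_mul]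
      congr 1
      funext x
      simp only [SF.smul_apply, SF.mul_apply]
      ring
    have cu : ContinuousOn (fun x => u x ^ 2) {0}ᶜ := u.continuousOn.pow 2
    have cv : ContinuousOn (fun x => η x * (Dlet i u) x) {0}ᶜ :=
      η.continuousOn.mul (Dlet i u).continuousOn
    have e2 := abs_ip_le cu cv
    have e3 : nrm (fun x => η x * (Dlet i u) x) ≤ S * nrm (Dlet i u) := by
      have e4 : nrm (fun x => η x * (Dlet i u) x) ^ 2 ≤ (S * nrm (Dlet i u)) ^ 2 := by
        rw [nrm_sq, mul_pow, nrm_sq, ← integral_const_mul]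
        refine setIntegral_mono_on (integrableOn_shell (cv.pow 2))
          (integrableOn_shell (continuousOn_const.mul ((Dlet i u).continuousOn.pow 2)))
          measurableSet_shell (fun x _ => ?_)
        rw [mul_pow]
        refine mul_le_mul_of_nonneg_right ?_ (sq_nonneg _)
        rw [← sq_abs]
        exact pow_le_pow_left₀ (abs_nonneg _) (hS x) 2
      exact abs_le_of_sq_le_sq' e4 (mul_nonneg hS0 (nrm_nonneg _)) |>.2
    rw [e1, abs_mul, abs_of_pos (by norm_num : (0:ℝ) < 3)]
    calc 3 * |ip (fun x => u x ^ 2) (fun x => η x * (Dlet i u) x)|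
        ≤ 3 * (N * (S * nrm (Dlet i u))) := by
          refine mul_le_mul_of_nonneg_left ?_ (by norm_num)
          exact le_trans e2 (mul_le_mul_of_nonneg_left e3 hN0)
      _ = 3 * S * (N * nrm (Dlet i u)) := by ring
  have h5 : N ^ 2 ≤ 3 * S * (N * nrm (Dlet i u)) := by
    rw [h1, h2]
    exact le_trans (neg_le_abs _) h4
  have hD0 : 0 ≤ nrm (Dlet i u) := nrm_nonneg _
  rcases hN0.eq_or_lt with h0 | h0
  · rw [← h0]; positivity
  · have h6 : N * N ≤ N * (3 * S * nrm (Dlet i u)) := by nlinarith
    exact le_of_mul_le_mul_left h6 h0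

end Pool.Agent.MP85963d.H59
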