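import Mathlib
import Pool.Agent.Lib.MP_85963d_gt.Interfaces
import Pool.Agent.Lib.MP_85963d_gt.H59.Sphere

/-!
# Module SOB: the Sobolev inequality (2.6)
-/

set_option autoImplicit false

open MeasureTheory Set Filter Topology Quaternion
open scoped Real ContDiff

namespace Pool.Agent.MP85963d.H59

open SF

/-- left fields preserve right invariances -/
theorem DZ_rinv (a : Fin 3) (F : SF) {ρ : ℍ} (hρ : ρ ≠ 0) (h : ∀ x : ℍ, F (x * ρ) = F x) (x : ℍ) :
    (DZ a F) (x * ρ) = (DZ a F) x := by
  by_cases hx : x = 0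
  · subst hx; rw [zero_mul]
  · have h1 := hasDerivAt_DZ a F (x := x * ρ) (mul_ne_zero hx hρ) 0
    have h2 := hasDerivAt_DZ a F (x := x) hx 0
    have e : (fun t => F (rot (qU a) t * (x * ρ))) = fun t => F (rot (qU a) t * x) := by
      funext t
      rw [← mul_assoc, h]
    rw [e] at h1
    have := h1.unique h2
    simpa [rot_zero] using this

theorem DZ_isU (a : Fin 3) {F : SF} (h : IsU F) : IsU (DZ a F) := by
  constructor
  · intro x t
    exact DZ_rinv a F (rot_ne_zero isImUnit_I t) (fun y => h.rotI y t) x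
  · intro x
    have hK : qK ≠ 0 := by
      have := rot_ne_zero isImUnit_K π
      rwa [rot_pi] at this
    exact DZ_rinv a F hK h.mulK x

theorem Cts_SF (F : SF) : Cts F := ⟨F.continuousOn, fun _ x hr _ => F.hom hr x⟩

/-- bound of `X²` by left fields -/
theorem abs_DXDX_le (hC : CasFacts) (η : SF) {x : ℍ} (hx : x ≠ 0) :
    |(DX (DX η)) x| ≤ ∑ a : Fin 3, ∑ b : Fin 3, |(DZ b (DZ a η)) x| := by
  obtain ⟨e, u, v, h1, h2, h3, h4⟩ := hC.frame
  have he : ∀ a : Fin 3, |(e a) x| ≤ 1 := by
    intro a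
    rw [(h1 a x hx).1]
    have := PiLp.norm_apply_le (fe x) a
    rw [norm_fe hx] at this
    exact this
  rw [h2 (DX η)]
  rw [SF.sum_apply]
  refine le_trans (Finset.abs_sum_le_sum_abs _ _) (Finset.sum_le_sum (fun a _ => ?_))
  rw [SF.mul_apply, abs_mul, ← DX_DZ, h2 (DZ a η), SF.sum_apply]
  calc |(e a) x| * |∑ b, (e b * DZ b (DZ a η)) x|
      ≤ 1 * ∑ b, |(e b * DZ b (DZ a η)) x| :=
        mul_le_mul (he a) (Finset.abs_sum_le_sum_abs _ _) (abs_nonneg _) (by norm_num)
    _ ≤ ∑ b, |(DZ b (DZ a η)) x| := by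
        rw [one_mul]
        refine Finset.sum_le_sum (fun b _ => ?_)
        rw [SF.mul_apply, abs_mul]
        calc |(e b) x| * |(DZ b (DZ a η)) x| ≤ 1 * |(DZ b (DZ a η)) x| :=
              mul_le_mul_of_nonneg_right (he b) (abs_nonneg _)
          _ = _ := one_mul _

/-- the function dominating `η + X² η` -/
noncomputable def gD (η : SF) (x : ℍ) : ℝ :=
  |η x| + ∑ a : Fin 3, ∑ b : Fin 3, |(DZ b (DZ a η)) x|

theorem gD_cts (η : SF) : Cts (gD η) := by
  constructor
  · refine ContinuousOn.add η.continuousOn.abs ?_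
    refine continuousOn_finsetSum _ (fun a _ => continuousOn_finsetSum _ (fun b _ => ?_))
    exact (DZ b (DZ a η)).continuousOn.abs
  · intro r x hr _
    simp only [gD, SF.hom _ hr]

theorem gD_isU {η : SF} (h : IsU η) : IsU (gD η) := by
  constructor
  · intro x t
    simp only [gD, h.rotI, (DZ_isU _ (DZ_isU _ h)).rotI]
  · intro x
    simp only [gD, h.mulK, (DZ_isU _ (DZ_isU _ h)).mulK]

/-- the one-dimensional identity -/
theorem one_dim (η : SF) (hU : IsU η) {y : ℍ} (hy : y ≠ 0) :
    2 * η y = ∫ r in (0:ℝ)..π, (η (y * rot qK r) + (DX (DX η)) (y * rot qK r)) * Real.sin r := by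
  have hd : ∀ r ∈ uIcc (0:ℝ) π, HasDerivAt (fun r => (DX η) (y * rot qK r) * Real.sin r
      - η (y * rot qK r) * Real.cos r)
      ((η (y * rot qK r) + (DX (DX η)) (y * rot qK r)) * Real.sin r) r := by
    intro r _
    have h1 := hasDerivAt_DX (DX η) hy r
    have h2 := hasDerivAt_DX η hy r
    have h3 := (h1.mul (Real.hasDerivAt_sin r)).sub (h2.mul (Real.hasDerivAt_cos r))
    have e : (η (y * rot qK r) + (DX (DX η)) (y * rot qK r)) * Real.sin r
        = (DX (DX η)) (y * rot qK r) * Real.sin r + (DX η) (y * rot qK r) * Real.cos r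
          - ((DX η) (y * rot qK r) * Real.cos r + η (y * rot qK r) * -Real.sin r) := by ring
    rw [e]
    exact h3
  have hc : ContinuousOn (fun r : ℝ => (η (y * rot qK r) + (DX (DX η)) (y * rot qK r))
      * Real.sin r) (uIcc (0:ℝ) π) := by
    apply Continuous.continuousOn
    have hmaps : ∀ r : ℝ, y * rot qK r ∈ ({0}ᶜ : Set ℍ) := fun r => rrot_ne_zero isImUnit_K hy r
    have hcr : Continuous (fun r : ℝ => y * rot qK r) := continuous_const.mul (continuous_rot qK)
    refine Continuous.mul (Continuous.add ?_ ?_) Real.continuous_sin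
    · exact η.continuousOn.comp_continuous hcr hmaps
    · exact (DX (DX η)).continuousOn.comp_continuous hcr hmaps
  rw [intervalIntegral.integral_eq_sub_of_hasDerivAt hd hc.intervalIntegrable]
  simp only [Real.sin_pi, Real.cos_pi, Real.sin_zero, Real.cos_zero, rot_zero, rot_pi, mul_one,
    mul_zero, hU.mulK]
  ring

theorem idx_eq (a : Fin 3) : ∃ i : Fin 6, ∀ F : SF, Dlet i F = DZ a F := by
  fin_cases a
  · exact ⟨3, fun _ => rfl⟩
  · exact ⟨4, fun _ => rfl⟩
  · exact ⟨5, fun _ => rfl⟩

theorem nrm_DZDZ_le (hN : NormFacts) (a b : Fin 3) (η : SF) :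
    nrm (DZ b (DZ a η)) ≤ nrm (Lap η) := by
  obtain ⟨i, hi⟩ := idx_eq a
  obtain ⟨j, hj⟩ := idx_eq b
  have := hN.two η [j, i] rfl
  simpa [word, hi, hj] using this

theorem integral_abs_le (F : SF) : ∫ x in shell, |F x| ≤ nrm (fun _ : ℍ => (1:ℝ)) * nrm F := by
  have h1 := abs_ip_le (f := fun _ : ℍ => (1:ℝ)) (g := fun x => |F x|) continuousOn_const
    F.continuousOn.abs
  have h2 : nrm (fun x => |F x|) = nrm F := by
    unfold nrm
    simp only [sq_abs]
  rw [h2] at h1
  refine le_trans (le_of_eq ?_) (le_trans (le_abs_self _) h1)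
  simp only [ip, one_mul]

theorem sob_of (hC : CasFacts) (hN : NormFacts) : SobStatement := by
  obtain ⟨c, hc, hS⟩ := sphere_holds
  set A : ℝ := nrm (fun _ : ℍ => (1:ℝ)) with hA
  have hA0 : 0 ≤ A := nrm_nonneg _
  refine ⟨9 * A / c / (4 * π), fun η hU x => ?_⟩
  have hn1 : 0 ≤ nrm η := nrm_nonneg _
  have hn2 : 0 ≤ nrm (Lap η) := nrm_nonneg _
  by_cases hx : x = 0
  · subst hx
    rw [map_zero', abs_zero]
    positivity
  -- pointwise bound for every circle
  have hmaps : ∀ θ r : ℝ, x * rot qI θ * rot qK r ≠ 0 := fun θ r =>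
    rrot_ne_zero isImUnit_K (rrot_ne_zero isImUnit_I hx θ) r
  have h1 : ∀ θ : ℝ, 2 * |η x| ≤ ∫ r in (0:ℝ)..π, gD η (x * rot qI θ * rot qK r) * Real.sin r := by
    intro θ
    have h2 := one_dim η hU (rrot_ne_zero isImUnit_I hx θ)
    rw [hU.rotI] at h2
    have h3 : 2 * |η x| = |2 * η x| := by rw [abs_mul]; norm_num
    rw [h3, h2]
    have hcr : Continuous (fun r : ℝ => x * rot qI θ * rot qK r) :=
      continuous_const.mul (continuous_rot qK)
    refine le_trans (intervalIntegral.abs_integral_le_integral_abs Real.pi_pos.le) ?_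
    refine intervalIntegral.integral_mono_on Real.pi_pos.le ?_ ?_ ?_
    · apply Continuous.intervalIntegrable
      refine Continuous.abs (Continuous.mul (Continuous.add ?_ ?_) Real.continuous_sin)
      · exact η.continuousOn.comp_continuous hcr (hmaps θ)
      · exact (DX (DX η)).continuousOn.comp_continuous hcr (hmaps θ)
    · apply Continuous.intervalIntegrable
      exact ((gD_cts η).cont.comp_continuous hcr (hmaps θ)).mul Real.continuous_sin
    · intro r hr
      have hs : 0 ≤ Real.sin r := Real.sin_nonneg_of_mem_Icc hr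
      rw [abs_mul, abs_of_nonneg hs]
      refine mul_le_mul_of_nonneg_right ?_ hs
      refine le_trans (abs_add_le _ _) ?_
      exact add_le_add le_rfl (abs_DXDX_le hC η (hmaps θ r))
  have h2 : (4 * π) * |η x| ≤ ∫ θ in (0:ℝ)..(2 * π), ∫ r in (0:ℝ)..π,
      gD η (x * rot qI θ * rot qK r) * Real.sin r := by
    have e1 : (4 * π) * |η x| = ∫ _θ in (0:ℝ)..(2 * π), 2 * |η x| := by
      rw [intervalIntegral.integral_const, smul_eq_mul]; ring
    rw [e1]
    refine intervalIntegral.integral_mono_on (by positivity) ?_ ?_ (fun θ _ => h1 θ)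
    · exact continuous_const.intervalIntegrable _ _
    · apply Continuous.intervalIntegrable
      apply intervalIntegral.continuous_parametric_intervalIntegral_of_continuous'
      have hcr : Continuous (fun p : ℝ × ℝ => x * rot qI p.1 * rot qK p.2) :=
        (continuous_const.mul ((continuous_rot qI).comp continuous_fst)).mul
          ((continuous_rot qK).comp continuous_snd)
      exact ((gD_cts η).cont.comp_continuous hcr (fun p => hmaps p.1 p.2)).mul
        (Real.continuous_sin.comp continuous_snd)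
  have h3 := hS (gD η) (gD_cts η) (gD_isU hU) x hx
  have h4 : ∫ z in shell, gD η z ≤ 9 * A * (nrm η + nrm (Lap η)) := by
    have i1 : IntegrableOn (fun z => |η z|) shell := integrableOn_shell η.continuousOn.abs
    have i2 : ∀ a b : Fin 3, IntegrableOn (fun z => |(DZ b (DZ a η)) z|) shell := fun a b =>
      integrableOn_shell (DZ b (DZ a η)).continuousOn.abs
    have e1 : ∫ z in shell, gD η z = (∫ z in shell, |η z|)
        + ∑ a : Fin 3, ∑ b : Fin 3, ∫ z in shell, |(DZ b (DZ a η)) z| := by
      unfold gD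
      rw [integral_add i1 (integrable_finsetSum _ (fun a _ =>
        integrable_finsetSum _ (fun b _ => i2 a b))),
        integral_finsetSum _ (fun a _ => integrable_finsetSum _ (fun b _ => i2 a b))]
      congr 1
      refine Finset.sum_congr rfl (fun a _ => ?_)
      exact integral_finsetSum _ (fun b _ => i2 a b)
    rw [e1]
    have e2 : ∑ a : Fin 3, ∑ b : Fin 3, ∫ z in shell, |(DZ b (DZ a η)) z|
        ≤ ∑ _a : Fin 3, ∑ _b : Fin 3, A * nrm (Lap η) := by
      refine Finset.sum_le_sum (fun a _ => Finset.sum_le_sum (fun b _ => ?_))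
      exact le_trans (integral_abs_le _) (mul_le_mul_of_nonneg_left (nrm_DZDZ_le hN a b η) hA0)
    simp only [Finset.sum_const, Finset.card_univ, Fintype.card_fin, nsmul_eq_mul] at e2
    have e3 := integral_abs_le η
    rw [← hA] at e3
    push_cast at e2
    nlinarith [mul_nonneg hA0 hn1, mul_nonneg hA0 hn2]
  have h5 : (4 * π) * |η x| * c ≤ 9 * A * (nrm η + nrm (Lap η)) := by
    refine le_trans ?_ h4
    rw [h3, mul_comm]
    exact mul_le_mul_of_nonneg_left h2 hc.le
  have h6 : |η x| ≤ (9 * A * (nrm η + nrm (Lap η))) / (c * (4 * π)) := by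
    rw [le_div_iff₀ (by positivity)]
    linarith
  refine le_trans h6 (le_of_eq ?_)
  field_simp

end Pool.Agent.MP85963d.H59
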